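import Mathlib

/-!
Laws of the image of a symmetric random walk under a measurable monoid homomorphism.
-/

namespace Pool.Agent.Lib.MP_7af27d_pr

open MeasureTheory ProbabilityTheory Filter Topology
open scoped ENNReal

/-- The deterministic walk driven by a sequence of steps. -/
def walk {G : Type*} [Monoid G] (w : ℕ → G) : ℕ → G
  | 0 => 1
  | t + 1 => walk w t * w t

theorem walk_congr {G : Type*} [Monoid G] {w w' : ℕ → G} (t : ℕ) (h : ∀ i < t, w i = w' i) :
    walk w t = walk w' t := by
  induction t with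
  | zero => rfl
  | succ t ih =>
    simp only [walk]
    rw [ih fun i hi => h i (by omega), h t (by omega)]

/-- Convolution powers. -/
noncomputable def cpow {M : Type*} [Monoid M] [MeasurableSpace M] (m : Measure M) :
    ℕ → Measure M
  | 0 => Measure.dirac 1
  | t + 1 => cpow m t ∗ₘ m

instance cpow_prob {M : Type*} [Monoid M] [MeasurableSpace M] [MeasurableMul₂ M] (m : Measure M)
    [IsProbabilityMeasure m] (t : ℕ) : IsProbabilityMeasure (cpow m t) := by
  induction t with
  | zero =>
    simp only [cpow]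
    infer_instance
  | succ t ih =>
    simp only [cpow]
    infer_instance

theorem cpow_succ' {M : Type*} [Monoid M] [MeasurableSpace M] [MeasurableMul₂ M] (m : Measure M)
    [IsProbabilityMeasure m] (t : ℕ) : cpow m (t + 1) = m ∗ₘ cpow m t := by
  induction t with
  | zero => simp [cpow]
  | succ t ih =>
    conv_lhs => rw [cpow, ih]
    rw [Measure.mconv_assoc]
    rfl

variable {G : Type*} [Group G] [MeasurableSpace G] {Ω : Type*} [MeasurableSpace Ω]
  {P : Measure Ω} {U : ℕ → Ω → G}

theorem indep_past {β : Type*} [MeasurableSpace β] (hind : iIndepFun U P)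
    (hU : ∀ i, AEMeasurable (U i) P) (t : ℕ) (F : (ℕ → G) → β) (hF : Measurable F)
    (hdep : ∀ w w' : ℕ → G, (∀ i < t, w i = w' i) → F w = F w') :
    IndepFun (fun ω => F fun i => U i ω) (U t) P := by
  classical
  have h := hind.indepFun_finset₀ (Finset.range t) {t} (by simp) hU
  have h2 := h.comp
    (φ := fun v : (Finset.range t → G) => F fun i => if h : i ∈ Finset.range t then v ⟨i, h⟩ else 1)
    (ψ := fun v : (({t} : Finset ℕ) → G) => v ⟨t, Finset.mem_singleton_self t⟩)
    (by
      apply hF.comp
      apply measurable_pi_lambda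
      intro i
      by_cases hi : i ∈ Finset.range t
      · simp only [dif_pos hi]
        exact measurable_pi_apply _
      · simp only [dif_neg hi]
        exact measurable_const)
    (measurable_pi_apply (X := fun _ : ({t} : Finset ℕ) => G) ⟨t, Finset.mem_singleton_self t⟩)
  convert h2 using 1
  · funext ω
    apply hdep
    intro i hi
    simp [hi]
  · rfl

variable {M : Type*} [Monoid M] [MeasurableSpace M] [MeasurableMul₂ M]

theorem measurable_walk (ρ : G →* M) (hρ : Measurable ρ) (t : ℕ) :
    Measurable fun w : ℕ → G => ρ (walk w t) := by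
  induction t with
  | zero => simp [walk]
  | succ t ih =>
    simp only [walk, map_mul]
    exact ih.mul (hρ.comp (measurable_pi_apply t))

theorem measurable_walk_inv (ρ : G →* M) (hρ : Measurable fun g => ρ g⁻¹) (t : ℕ) :
    Measurable fun w : ℕ → G => ρ (walk w t)⁻¹ := by
  induction t with
  | zero => simp [walk]
  | succ t ih =>
    simp only [walk, mul_inv_rev, map_mul]
    exact (hρ.comp (measurable_pi_apply t)).mul ih

variable {μ : Measure G} [IsProbabilityMeasure μ]

omit [IsProbabilityMeasure μ] in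
theorem indep_walk (ρ : G →* M) (hρ : Measurable ρ) (hind : iIndepFun U P)
    (hlaw : ∀ i, HasLaw (U i) μ P) (t : ℕ) :
    IndepFun (fun ω => ρ (walk (fun i => U i ω) t)) (fun ω => ρ (U t ω)) P :=
  (indep_past hind (fun i => (hlaw i).aemeasurable) t _ (measurable_walk ρ hρ t)
    (fun _ _ h => by rw [walk_congr t h])).comp measurable_id hρ

theorem hasLaw_walk (ρ : G →* M) (hρ : Measurable ρ) (hind : iIndepFun U P)
    (hlaw : ∀ i, HasLaw (U i) μ P) (t : ℕ) :
    HasLaw (fun ω => ρ (walk (fun i => U i ω) t)) (cpow (μ.map ρ) t) P := by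
  have := (hlaw 0).isProbabilityMeasure
  have : IsProbabilityMeasure (μ.map ρ) := Measure.isProbabilityMeasure_map hρ.aemeasurable
  induction t with
  | zero =>
    simp only [walk, cpow, map_one]
    exact ⟨aemeasurable_const, by simp⟩
  | succ t ih =>
    simp only [walk, cpow, map_mul]
    exact (indep_walk ρ hρ hind hlaw t).hasLaw_fun_mul ih
      ((HasLaw.mk hρ.aemeasurable rfl).fun_comp (hlaw t))

theorem hasLaw_walk_inv (ρ : G →* M) (hρ : Measurable ρ) (hρ' : Measurable fun g => ρ g⁻¹)
    (hsymm : μ.map (fun g => ρ g⁻¹) = μ.map ρ) (hind : iIndepFun U P)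
    (hlaw : ∀ i, HasLaw (U i) μ P) (t : ℕ) :
    HasLaw (fun ω => ρ (walk (fun i => U i ω) t)⁻¹) (cpow (μ.map ρ) t) P := by
  have := (hlaw 0).isProbabilityMeasure
  have : IsProbabilityMeasure (μ.map ρ) := Measure.isProbabilityMeasure_map hρ.aemeasurable
  induction t with
  | zero =>
    simp only [walk, cpow, inv_one, map_one]
    exact ⟨aemeasurable_const, by simp⟩
  | succ t ih =>
    rw [cpow_succ']
    simp only [walk, mul_inv_rev, map_mul]
    have hi : IndepFun (fun ω => ρ (walk (fun i => U i ω) t)⁻¹) (fun ω => ρ (U t ω)⁻¹) P :=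
      (indep_past hind (fun i => (hlaw i).aemeasurable) t _ (measurable_walk_inv ρ hρ' t)
        (fun _ _ h => by rw [walk_congr t h])).comp measurable_id hρ'
    exact hi.symm.hasLaw_fun_mul ((HasLaw.mk hρ'.aemeasurable hsymm).fun_comp (hlaw t)) ih

theorem hasLaw_walk_pair (ρ : G →* M) (hρ : Measurable ρ) (hind : iIndepFun U P)
    (hlaw : ∀ i, HasLaw (U i) μ P) (t : ℕ) :
    HasLaw (fun ω => (ρ (walk (fun i => U i ω) t), ρ (U t ω)))
      ((cpow (μ.map ρ) t).prod (μ.map ρ)) P := by
  have := (hlaw 0).isProbabilityMeasure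
  have h1 := hasLaw_walk ρ hρ hind hlaw t
  have h2 : HasLaw (fun ω => ρ (U t ω)) (μ.map ρ) P :=
    (HasLaw.mk hρ.aemeasurable rfl).fun_comp (hlaw t)
  refine ⟨h1.aemeasurable.prodMk h2.aemeasurable, ?_⟩
  rw [(indep_walk ρ hρ hind hlaw t).map_prod_eq_prod_map_map h1.aemeasurable h2.aemeasurable,
    h1.map_eq, h2.map_eq]

end Pool.Agent.Lib.MP_7af27d_pr
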