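import Mathlib
import Pool.Agent.Lib.MP_7af27d_pr.Walk

/-!
A vector of a finite-dimensional representation whose orbit along a symmetric adapted random walk
has increments tending to zero is fixed by the group.
-/

namespace Pool.Agent.Lib.MP_7af27d_pr

open MeasureTheory ProbabilityTheory Filter Topology
open scoped ENNReal

section Upgrade

variable {E : Type*} [NormedAddCommGroup E] [NormedSpace ℝ E] [FiniteDimensional ℝ E]
  [MeasurableSpace E] [BorelSpace E]

/-- The truncated moment of `a v` for a random operator `a` with law `p`. -/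
noncomputable def phi (p : Measure (E →L[ℝ] E)) (v : E) : ℝ≥0∞ := ∫⁻ a, min 1 ‖a v‖ₑ ∂p

omit [FiniteDimensional ℝ E] [MeasurableSpace E] [BorelSpace E] in
theorem continuous_trunc : Continuous fun z : (E →L[ℝ] E) × E => min (1 : ℝ≥0∞) ‖z.1 z.2‖ₑ :=
  continuous_const.min (by fun_prop)

theorem measurable_trunc : Measurable fun z : (E →L[ℝ] E) × E => min (1 : ℝ≥0∞) ‖z.1 z.2‖ₑ :=
  continuous_trunc.measurable

theorem measurable_trunc_left (v : E) : Measurable fun a : E →L[ℝ] E => min (1 : ℝ≥0∞) ‖a v‖ₑ :=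
  measurable_trunc.comp (measurable_id.prodMk measurable_const)

theorem measurable_phi (p : Measure (E →L[ℝ] E)) [SFinite p] : Measurable (phi p) :=
  Measurable.lintegral_prod_left' (f := fun z : (E →L[ℝ] E) × E => min (1 : ℝ≥0∞) ‖z.1 z.2‖ₑ)
    measurable_trunc

theorem min_one_add_le (x y : ℝ≥0∞) : min 1 (x + y) ≤ min 1 x + min 1 y := by
  rcases le_total 1 x with hx | hx
  · rw [min_eq_left hx]
    exact (min_le_left _ _).trans le_self_add
  · rcases le_total 1 y with hy | hy
    · rw [min_eq_left hy]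
      exact (min_le_left _ _).trans le_add_self
    · rw [min_eq_right hx, min_eq_right hy]
      exact min_le_right _ _

theorem min_one_mul_le (c x : ℝ≥0∞) : min 1 (c * x) ≤ (c + 1) * min 1 x := by
  rcases le_total 1 x with hx | hx
  · rw [min_eq_left hx, mul_one]
    exact (min_le_left _ _).trans le_add_self
  · rw [min_eq_right hx]
    exact (min_le_right _ _).trans (mul_le_mul_left le_self_add _)

theorem phi_add (p : Measure (E →L[ℝ] E)) (v w : E) : phi p (v + w) ≤ phi p v + phi p w := by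
  unfold phi
  rw [← lintegral_add_left (measurable_trunc_left v)]
  refine lintegral_mono fun a => ?_
  simp only [map_add]
  exact (min_le_min_left _ (enorm_add_le _ _)).trans (min_one_add_le _ _)

theorem phi_smul (p : Measure (E →L[ℝ] E)) (c : ℝ) (v : E) :
    phi p (c • v) ≤ (‖c‖ₑ + 1) * phi p v := by
  unfold phi
  rw [← lintegral_const_mul _ (measurable_trunc_left v)]
  refine lintegral_mono fun a => ?_
  simp only [map_smul, enorm_smul]
  exact min_one_mul_le _ _

/-- The vectors killed in probability along a filter. -/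
def killed (p : ℕ → Measure (E →L[ℝ] E)) (l : Filter ℕ) : Submodule ℝ E where
  carrier := {v | Tendsto (fun t => phi (p t) v) l (𝓝 0)}
  zero_mem' := by simpa [phi] using tendsto_const_nhds
  add_mem' := by
    intro v w hv hw
    have h := Tendsto.add hv hw
    rw [add_zero] at h
    exact tendsto_of_tendsto_of_tendsto_of_le_of_le tendsto_const_nhds h (fun _ => zero_le)
      fun t => phi_add _ _ _
  smul_mem' := by
    intro c v hv
    have h := ENNReal.Tendsto.const_mul (a := ‖c‖ₑ + 1) hv (Or.inr (by simp))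
    rw [mul_zero] at h
    exact tendsto_of_tendsto_of_tendsto_of_le_of_le tendsto_const_nhds h (fun _ => zero_le)
      fun t => phi_smul _ _ _

theorem ae_mem_killed (p : ℕ → Measure (E →L[ℝ] E)) [∀ t, SFinite (p t)] {S : Type*}
    [MeasurableSpace S] (m : Measure S) (Y : S → E) (hY : Measurable Y)
    (h : Tendsto (fun t => ∫⁻ s, phi (p t) (Y s) ∂m) atTop (𝓝 0)) :
    ∀ᵐ s ∂m, Y s ∈ killed p atTop := by
  obtain ⟨L, hL, hmin⟩ := (wellFounded_lt (α := Submodule ℝ E)).has_min
    {L | ∀ᵐ s ∂m, Y s ∈ L} ⟨⊤, by simp⟩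
  have hle : ∀ L' : Submodule ℝ E, (∀ᵐ s ∂m, Y s ∈ L') → L ≤ L' := by
    intro L' hL'
    have h1 : ∀ᵐ s ∂m, Y s ∈ L ⊓ L' := by
      filter_upwards [hL, hL'] with s h1 h2 using ⟨h1, h2⟩
    have h2 : L ⊓ L' = L := by
      by_contra hne
      exact hmin _ h1 (lt_of_le_of_ne inf_le_left hne)
    rw [← h2]
    exact inf_le_right
  suffices hs : L ≤ killed p atTop by
    filter_upwards [hL] with s hs' using hs hs'
  intro v hv
  apply tendsto_of_subseq_tendsto
  intro ns hns
  have hex : ∀ k : ℕ, ∃ j, ∫⁻ s, phi (p (ns j)) (Y s) ∂m ≤ ENNReal.ofReal ((1 / 2) ^ k) :=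
    fun k => ((h.comp hns).eventually
      (ge_mem_nhds (ENNReal.ofReal_pos.2 (by positivity)))).exists
  choose ms hms using hex
  refine ⟨ms, ?_⟩
  have hfin : ∫⁻ s, ∑' k, phi (p (ns (ms k))) (Y s) ∂m ≠ ∞ := by
    rw [lintegral_tsum (f := fun k s => phi (p (ns (ms k))) (Y s))
      fun k => ((measurable_phi _).comp hY).aemeasurable]
    exact ne_top_of_le_ne_top summable_geometric_two.tsum_ofReal_ne_top
      (ENNReal.tsum_le_tsum hms)
  have hae := ae_lt_top (Measurable.tsum (f := fun k s => phi (p (ns (ms k))) (Y s))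
    fun k => (measurable_phi _).comp hY) hfin
  have h3 : ∀ᵐ s ∂m, Y s ∈ killed p (map (fun k => ns (ms k)) atTop) := by
    filter_upwards [hae] with s hs
    exact ENNReal.tendsto_atTop_zero_of_tsum_ne_top hs.ne
  exact hle _ h3 hv

theorem phi_cpow_succ (m : Measure (E →L[ℝ] E)) [IsProbabilityMeasure m] (t : ℕ) (v : E) :
    phi (cpow m (t + 1)) v = ∫⁻ b, phi (cpow m t) (b v) ∂m := by
  unfold phi
  rw [cpow, Measure.lintegral_mconv_eq_lintegral_prod (measurable_trunc_left v),
    lintegral_prod_symm]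
  · rfl
  · exact ((measurable_trunc_left v).comp measurable_mul).aemeasurable

theorem ae_maps_killed (m : Measure (E →L[ℝ] E)) [IsProbabilityMeasure m] :
    ∀ᵐ b ∂m, ∀ v ∈ killed (cpow m) atTop, b v ∈ killed (cpow m) atTop := by
  set N := killed (cpow m) atTop with hN
  let bN := Module.finBasis ℝ N
  have h1 : ∀ i, ∀ᵐ b ∂m, b (bN i) ∈ N := by
    intro i
    apply ae_mem_killed (cpow m) m (fun b => b (bN i)) (ContinuousLinearMap.measurable_apply _)
    have h2 : Tendsto (fun t => phi (cpow m (t + 1)) (bN i)) atTop (𝓝 0) :=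
      (tendsto_add_atTop_iff_nat (f := fun t => phi (cpow m t) (bN i)) 1).2 (bN i).2
    simpa only [phi_cpow_succ] using h2
  filter_upwards [ae_all_iff.2 h1] with b hb v hv
  have h3 : v = ∑ i, bN.repr ⟨v, hv⟩ i • (bN i : E) := by
    have := congrArg N.subtype (bN.sum_repr ⟨v, hv⟩)
    rw [map_sum] at this
    exact this.symm
  rw [h3, map_sum]
  exact N.sum_mem fun i _ => by
    rw [map_smul]
    exact N.smul_mem _ (hb i)

end Upgrade

theorem fixed_of_walk {E : Type*} [NormedAddCommGroup E] [NormedSpace ℝ E]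
    [FiniteDimensional ℝ E] {G : Type*} [Group G] [TopologicalSpace G] [IsTopologicalGroup G]
    [MeasurableSpace G] [BorelSpace G] (μ : Measure G) [IsProbabilityMeasure μ]
    (hadapt : ∀ H : Subgroup G, IsClosed (H : Set G) → μ H = 1 → H = ⊤)
    (hsymm : μ.map (fun g => g⁻¹) = μ)
    {Ω : Type*} [MeasurableSpace Ω] {P : Measure Ω} {U : ℕ → Ω → G} (hind : iIndepFun U P)
    (hlaw : ∀ i, HasLaw (U i) μ P) (ρ : G →* (E →L[ℝ] E)) (hρ : Continuous ρ) (ξ : E)
    (hconv : ∀ᵐ ω ∂P, Tendsto (fun t => ρ (walk (fun i => U i ω) (t + 1)) ξ -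
      ρ (walk (fun i => U i ω) t) ξ) atTop (𝓝 0)) (g : G) : ρ g ξ = ξ := by
  borelize E
  have := (hlaw 0).isProbabilityMeasure
  have hρm : Measurable ρ := hρ.measurable
  have hρ' : Measurable fun g => ρ g⁻¹ := (hρ.comp continuous_inv).measurable
  have hsymm' : μ.map (fun g => ρ g⁻¹) = μ.map ρ := by
    conv_rhs => rw [← hsymm]
    rw [Measure.map_map hρm measurable_inv]
    rfl
  set m := μ.map ρ with hm
  have : IsProbabilityMeasure m := Measure.isProbabilityMeasure_map hρm.aemeasurable
  set N := killed (cpow m) atTop with hN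
  have hNc : IsClosed (N : Set E) := N.closed_of_finiteDimensional
  -- invariance of `N`
  have hinv : ∀ g, ∀ v ∈ N, ρ g v ∈ N := by
    let H : Subgroup G :=
      { carrier := {g | (∀ v ∈ N, ρ g v ∈ N) ∧ ∀ v ∈ N, ρ g⁻¹ v ∈ N}
        one_mem' := by simp
        mul_mem' := by
          rintro a b ⟨ha, ha'⟩ ⟨hb, hb'⟩
          refine ⟨fun v hv => ?_, fun v hv => ?_⟩
          · rw [map_mul]
            exact ha _ (hb v hv)
          · rw [mul_inv_rev, map_mul]
            exact hb' _ (ha' v hv)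
        inv_mem' := by
          rintro a ⟨ha, ha'⟩
          exact ⟨ha', by rwa [inv_inv]⟩ }
    have hcl : IsClosed (H : Set G) := by
      have : (H : Set G) = (⋂ v ∈ N, (fun g => ρ g v) ⁻¹' N) ∩
          ⋂ v ∈ N, (fun g => ρ g⁻¹ v) ⁻¹' N := by
        ext g
        simp only [Set.mem_inter_iff, Set.mem_iInter]
        rfl
      rw [this]
      exact (isClosed_biInter fun v _ => hNc.preimage (by fun_prop)).inter
        (isClosed_biInter fun v _ => hNc.preimage (by fun_prop))
    have h1 : ∀ᵐ g ∂μ, ∀ v ∈ N, ρ g v ∈ N := ae_of_ae_map hρm.aemeasurable (ae_maps_killed m)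
    have h2 : ∀ᵐ g ∂μ, ∀ v ∈ N, ρ g⁻¹ v ∈ N := by
      have h3 := ae_maps_killed m
      rw [← hsymm'] at h3
      have h4 := ae_of_ae_map hρ'.aemeasurable h3
      rwa [hsymm'] at h4
    have hH : H = ⊤ := hadapt H hcl ((mem_ae_iff_prob_eq_one hcl.measurableSet).1 (h1.and h2))
    intro g
    have : g ∈ H := hH ▸ Subgroup.mem_top g
    exact this.1
  -- `N` is trivial
  have hbot : ∀ v ∈ N, v = 0 := by
    intro v hv
    let bN := Module.finBasis ℝ N
    obtain ⟨C, hC, hCle⟩ := bN.exists_opNorm_le (F := E)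
    have hsmall : ∀ ε : ℝ, 0 < ε → ε ≤ 1 → ‖v‖ ≤ C * ε * ε := by
      intro ε hε hε1
      let F : ℕ → Ω → ℝ≥0∞ := fun t ω => min 1 ‖ρ (walk (fun i => U i ω) t) v‖ₑ +
        ∑ i, min 1 ‖ρ (walk (fun i => U i ω) t)⁻¹ (bN i)‖ₑ
      have hF : ∀ t, ∫⁻ ω, F t ω ∂P = phi (cpow m t) v + ∑ i, phi (cpow m t) (bN i) := by
        intro t
        have l1 := hasLaw_walk ρ hρm hind hlaw t
        have l2 := hasLaw_walk_inv ρ hρm hρ' hsymm' hind hlaw t
        simp only [F]
        rw [lintegral_add_left' (f := fun ω => min 1 ‖ρ (walk (fun i => U i ω) t) v‖ₑ)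
            ((measurable_trunc_left v).comp_aemeasurable l1.aemeasurable),
          lintegral_finsetSum' (f := fun i ω => min 1 ‖ρ (walk (fun i => U i ω) t)⁻¹ (bN i)‖ₑ) _
            fun i _ => (measurable_trunc_left (bN i : E)).comp_aemeasurable l2.aemeasurable]
        congr 1
        · exact l1.lintegral_comp (measurable_trunc_left v).aemeasurable
        · exact Finset.sum_congr rfl fun i _ =>
            l2.lintegral_comp (measurable_trunc_left (bN i : E)).aemeasurable
      have hlim : Tendsto (fun t => ∫⁻ ω, F t ω ∂P) atTop (𝓝 0) := by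
        simp only [hF]
        have := Tendsto.add hv (tendsto_finsetSum Finset.univ fun i _ => (bN i).2)
        simpa using this
      obtain ⟨t, ht⟩ := (hlim.eventually (gt_mem_nhds (ENNReal.ofReal_pos.2 hε))).exists
      have hω : ∃ ω, F t ω < ENNReal.ofReal ε := by
        by_contra hcon
        push Not at hcon
        have := lintegral_mono (μ := P) hcon
        rw [lintegral_const, measure_univ, mul_one] at this
        exact absurd ht (not_lt.2 this)
      obtain ⟨ω, hω⟩ := hω
      set x := walk (fun i => U i ω) t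
      have key : ∀ w : E, min 1 ‖w‖ₑ < ENNReal.ofReal ε → ‖w‖ ≤ ε := by
        intro w hw
        rcases min_lt_iff.1 hw with h | h
        · exact absurd h (not_lt.2 (ENNReal.ofReal_le_one.2 hε1))
        · rw [← ofReal_norm] at h
          exact ((ENNReal.ofReal_lt_ofReal_iff hε).1 h).le
      have e1 : ‖ρ x v‖ ≤ ε := key _ (lt_of_le_of_lt le_self_add hω)
      have e2 : ∀ i, ‖((ρ x⁻¹).comp N.subtypeL) (bN i)‖ ≤ ε := fun i =>
        key _ (lt_of_le_of_lt (le_add_left (Finset.single_le_sum
          (f := fun i => min 1 ‖ρ x⁻¹ (bN i)‖ₑ) (fun _ _ => zero_le) (Finset.mem_univ i))) hω)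
      have e3 := hCle hε.le e2
      have e4 : v = ((ρ x⁻¹).comp N.subtypeL) ⟨ρ x v, hinv x v hv⟩ := by
        change v = (ρ x⁻¹ * ρ x) v
        rw [← map_mul, inv_mul_cancel, map_one]
        rfl
      calc ‖v‖ = ‖((ρ x⁻¹).comp N.subtypeL) ⟨ρ x v, hinv x v hv⟩‖ := by rw [← e4]
        _ ≤ ‖(ρ x⁻¹).comp N.subtypeL‖ * ‖(⟨ρ x v, hinv x v hv⟩ : N)‖ :=
            ContinuousLinearMap.le_opNorm _ _
        _ ≤ C * ε * ε := mul_le_mul e3 e1 (norm_nonneg _) (by positivity)
    have hlim : Tendsto (fun ε : ℝ => C * ε * ε) (𝓝[>] 0) (𝓝 (C * 0 * 0)) :=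
      (Continuous.tendsto (by fun_prop) 0).mono_left nhdsWithin_le_nhds
    rw [mul_zero] at hlim
    apply norm_le_zero_iff.1
    apply ge_of_tendsto hlim
    filter_upwards [Ioc_mem_nhdsGT one_pos] with ε hε using hsmall ε hε.1 hε.2
  -- the increments
  have hinc : ∀ᵐ b ∂m, b ξ - ξ ∈ N := by
    have hYm : Measurable fun b : E →L[ℝ] E => b ξ - ξ :=
      (ContinuousLinearMap.measurable_apply ξ).sub measurable_const
    apply ae_mem_killed (cpow m) m (fun b => b ξ - ξ) hYm
    have hFm : Measurable fun z : (E →L[ℝ] E) × (E →L[ℝ] E) =>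
        min (1 : ℝ≥0∞) ‖z.1 (z.2 ξ - ξ)‖ₑ :=
      measurable_trunc.comp (measurable_fst.prodMk (hYm.comp measurable_snd))
    have heq : ∀ t, ∫⁻ b, phi (cpow m t) (b ξ - ξ) ∂m =
        ∫⁻ ω, min 1 ‖ρ (walk (fun i => U i ω) (t + 1)) ξ - ρ (walk (fun i => U i ω) t) ξ‖ₑ ∂P := by
      intro t
      have l := (hasLaw_walk_pair ρ hρm hind hlaw t).lintegral_comp hFm.aemeasurable
      rw [lintegral_prod_symm _ hFm.aemeasurable] at l
      refine l.symm.trans (lintegral_congr fun ω => ?_)
      simp only [walk, map_mul, map_sub]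
      rfl
    simp only [heq]
    have hz : (0 : ℝ≥0∞) = ∫⁻ _ : Ω, 0 ∂P := by simp
    rw [hz]
    apply tendsto_lintegral_of_dominated_convergence' (fun _ => 1)
    · intro t
      have l1 := hasLaw_walk ρ hρm hind hlaw t
      have l2 := hasLaw_walk ρ hρm hind hlaw (t + 1)
      exact aemeasurable_const.min ((l2.aemeasurable.apply_continuousLinearMap ξ).sub
        (l1.aemeasurable.apply_continuousLinearMap ξ)).enorm
    · intro t
      exact Eventually.of_forall fun _ => min_le_left _ _
    · simp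
    · filter_upwards [hconv] with ω hω
      have hc : Continuous fun w : E => min (1 : ℝ≥0∞) ‖w‖ₑ := continuous_const.min continuous_enorm
      have := (hc.tendsto (0 : E)).comp hω
      simpa [Function.comp_def] using this
  let H : Subgroup G :=
    { carrier := {g | ρ g ξ = ξ}
      one_mem' := by simp
      mul_mem' := by
        intro a b ha hb
        change ρ (a * b) ξ = ξ
        rw [map_mul]
        change ρ a (ρ b ξ) = ξ
        rw [hb, ha]
      inv_mem' := by
        intro a ha
        change ρ a⁻¹ ξ = ξ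
        conv_lhs => rw [← show ρ a ξ = ξ from ha]
        change (ρ a⁻¹ * ρ a) ξ = ξ
        rw [← map_mul, inv_mul_cancel, map_one]
        rfl }
  have hcl : IsClosed (H : Set G) := isClosed_eq (by fun_prop) continuous_const
  have h1 : ∀ᵐ g ∂μ, g ∈ H := by
    filter_upwards [ae_of_ae_map hρm.aemeasurable hinc] with g hg
    exact sub_eq_zero.1 (hbot _ hg)
  have hH : H = ⊤ := hadapt H hcl ((mem_ae_iff_prob_eq_one hcl.measurableSet).1 h1)
  have : g ∈ H := hH ▸ Subgroup.mem_top g
  exact this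

end Pool.Agent.Lib.MP_7af27d_pr
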