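import Mathlib
import Pool.Agent.Lib.MP_7af27d_pr.Fixed

/-!
A zero-one law: a matrix coefficient whose increments along a random walk tend to zero with
positive probability does so almost surely, from every starting point.
-/

namespace Pool.Agent.Lib.MP_7af27d_pr

open MeasureTheory ProbabilityTheory Filter Topology
open scoped ENNReal

theorem walk_add {M : Type*} [Monoid M] (w : ℕ → M) (k t : ℕ) :
    walk w (k + t) = walk w k * walk (fun i => w (k + i)) t := by
  induction t with
  | zero => simp [walk]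
  | succ t ih => rw [← add_assoc, walk, ih, walk, mul_assoc]

theorem map_walk {G M : Type*} [Monoid G] [Monoid M] (ρ : G →* M) (w : ℕ → G) (t : ℕ) :
    ρ (walk w t) = walk (fun i => ρ (w i)) t := by
  induction t with
  | zero => simp [walk]
  | succ t ih => rw [walk, walk, map_mul, ih]

theorem measurable_walk' {M : Type*} [Monoid M] [MeasurableSpace M] [MeasurableMul₂ M] (t : ℕ) :
    Measurable fun w : ℕ → M => walk w t := by
  induction t with
  | zero => exact measurable_const
  | succ t ih => exact ih.mul (measurable_pi_apply t)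

section Prod

variable {M : Type*} [MeasurableSpace M] (m : Measure M) [IsProbabilityMeasure m]

theorem map_shift (k : ℕ) :
    (Measure.infinitePi fun _ : ℕ => m).map (fun w i => w (k + i)) =
      Measure.infinitePi fun _ : ℕ => m := by
  have h := (iIndepFun_infinitePi (P := fun _ : ℕ => m) (X := fun _ x => x)
    fun _ => measurable_id).precomp (g := fun i => k + i) (add_right_injective k)
  rw [h.map_fun_eq_infinitePi_map fun i => measurable_pi_apply _]
  simp [Measure.infinitePi_map_eval]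

theorem freeze (c : M) (k : ℕ) {S : Set ((ℕ → M) × (ℕ → M))} (hS : MeasurableSet S) :
    (Measure.infinitePi fun _ : ℕ => m)
        {w | (fun i => if i < k then w i else c, fun i => w (k + i)) ∈ S} =
      ∫⁻ w, (Measure.infinitePi fun _ : ℕ => m)
        {w' | (fun i => if i < k then w i else c, w') ∈ S} ∂(Measure.infinitePi fun _ : ℕ => m) := by
  have h1 : Measurable fun (w : ℕ → M) i => if i < k then w i else c := by
    refine measurable_pi_lambda _ fun i => ?_
    split_ifs
    · exact measurable_pi_apply i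
    · exact measurable_const
  have h2 : Measurable fun (w : ℕ → M) i => w (k + i) :=
    measurable_pi_lambda _ fun i => measurable_pi_apply _
  have h := (iIndepFun_infinitePi (P := fun _ : ℕ => m) (X := fun _ x => x)
    fun _ => measurable_id).iIndep
  have h3 := indep_iSup_of_disjoint (fun i => (measurable_pi_apply i).comap_le) h
    (S := Set.Iio k) (T := Set.Ici k) (Set.Iio_disjoint_Ici le_rfl)
  have h4 : IndepFun (fun (w : ℕ → M) i => if i < k then w i else c) (fun w i => w (k + i))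
      (Measure.infinitePi fun _ : ℕ => m) := by
    rw [IndepFun_iff_Indep]
    refine indep_of_indep_of_le_right (indep_of_indep_of_le_left h3 ?_) ?_
    · refine Measurable.comap_le (@measurable_pi_lambda _ _ _ (_) _ _ fun i => ?_)
      split_ifs with hi
      · exact Measurable.of_comap_le (le_iSup₂ (f := fun (i : ℕ) (_ : i ∈ Set.Iio k) =>
          MeasurableSpace.comap (fun w : ℕ → M => w i) inferInstance) i hi)
      · exact measurable_const
    · refine Measurable.comap_le (@measurable_pi_lambda _ _ _ (_) _ _ fun i => ?_)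
      exact Measurable.of_comap_le (le_iSup₂ (f := fun (i : ℕ) (_ : i ∈ Set.Ici k) =>
        MeasurableSpace.comap (fun w : ℕ → M => w i) inferInstance) (k + i)
          (Nat.le_add_right k i))
  have h5 := h4.map_prod_eq_prod_map_map h1.aemeasurable h2.aemeasurable
  rw [map_shift] at h5
  have h6 := Measure.map_apply (μ := Measure.infinitePi fun _ : ℕ => m) (h1.prodMk h2) hS
  rw [h5, Measure.prod_apply hS, lintegral_map (measurable_measure_prodMk_left hS) h1] at h6
  exact h6.symm

end Prod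

section Op

variable {E : Type*} [NormedAddCommGroup E] [NormedSpace ℝ E]

/-- The functionals whose increments along a path tend to zero. -/
def Wsub (ξ : E) (w : ℕ → E →L[ℝ] E) : Submodule ℝ (E →L[ℝ] ℝ) where
  carrier := {φ | Tendsto (fun t => φ (walk w (t + 1) ξ - walk w t ξ)) atTop (𝓝 0)}
  zero_mem' := by simp
  add_mem' := by
    intro φ ψ h1 h2
    have := Tendsto.add h1 h2
    rwa [add_zero] at this
  smul_mem' := by
    intro c φ h
    have := Tendsto.const_mul c h
    rwa [mul_zero] at this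

/-- Precomposition with an operator. -/
def pre (a : E →L[ℝ] E) : (E →L[ℝ] ℝ) →ₗ[ℝ] (E →L[ℝ] ℝ) where
  toFun φ := φ.comp a
  map_add' _ _ := rfl
  map_smul' _ _ := rfl

theorem map_pre_mul (a b : E →L[ℝ] E) (L : Submodule ℝ (E →L[ℝ] ℝ)) :
    L.map (pre (a * b)) = (L.map (pre a)).map (pre b) := by
  rw [← Submodule.map_comp]
  rfl

theorem map_pre_one (L : Submodule ℝ (E →L[ℝ] ℝ)) : L.map (pre 1) = L := Submodule.map_id L

theorem le_Wsub_shift (ξ : E) (w : ℕ → E →L[ℝ] E) (k : ℕ) (L : Submodule ℝ (E →L[ℝ] ℝ)) :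
    L.map (pre (walk w k)) ≤ Wsub ξ (fun i => w (k + i)) ↔ L ≤ Wsub ξ w := by
  rw [Submodule.map_le_iff_le_comap]
  refine forall₂_congr fun φ _ => ?_
  show Tendsto (fun t => φ (walk w k (walk (fun i => w (k + i)) (t + 1) ξ -
    walk (fun i => w (k + i)) t ξ))) atTop (𝓝 0) ↔
    Tendsto (fun t => φ (walk w (t + 1) ξ - walk w t ξ)) atTop (𝓝 0)
  rw [← tendsto_add_atTop_iff_nat (f := fun t => φ (walk w (t + 1) ξ - walk w t ξ)) k]
  refine tendsto_congr fun t => ?_
  rw [add_right_comm, add_comm _ k, add_comm t k, walk_add w k, walk_add w k, map_sub (walk w k)]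
  rfl

variable [FiniteDimensional ℝ E]

theorem finrank_map_pre {a : E →L[ℝ] E} (ha : IsUnit a) (L : Submodule ℝ (E →L[ℝ] ℝ)) :
    Module.finrank ℝ (L.map (pre a)) = Module.finrank ℝ L := by
  obtain ⟨u, rfl⟩ := ha
  refine le_antisymm (Submodule.finrank_map_le _ _) ?_
  conv_lhs => rw [← map_pre_one L, ← u.mul_inv, map_pre_mul]
  exact Submodule.finrank_map_le _ _

theorem isClosed_pre (L : Submodule ℝ (E →L[ℝ] ℝ)) :
    IsClosed {a : E →L[ℝ] E | L.map (pre a) ≤ L} := by
  have : {a : E →L[ℝ] E | L.map (pre a) ≤ L} = ⋂ φ ∈ L, (fun a => φ.comp a) ⁻¹' L := by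
    ext a
    simp only [Set.mem_iInter, Set.mem_ofPred_eq, Submodule.map_le_iff_le_comap]
    rfl
  rw [this]
  exact isClosed_biInter fun φ _ => L.closed_of_finiteDimensional.preimage (by fun_prop)

theorem measurableSet_joint (ξ : E) (L : Submodule ℝ (E →L[ℝ] ℝ)) :
    MeasurableSet {z : (E →L[ℝ] E) × (ℕ → E →L[ℝ] E) | L.map (pre z.1) ≤ Wsub ξ z.2} := by
  obtain ⟨s, rfl⟩ : L.FG := IsNoetherian.noetherian L
  have : {z : (E →L[ℝ] E) × (ℕ → E →L[ℝ] E) |
      (Submodule.span ℝ (s : Set (E →L[ℝ] ℝ))).map (pre z.1) ≤ Wsub ξ z.2} =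
      ⋂ φ ∈ s, {z | Tendsto (fun t => φ ((z.1 * (walk z.2 (t + 1) - walk z.2 t)) ξ))
        atTop (𝓝 0)} := by
    ext z
    simp only [Set.mem_iInter, Set.mem_ofPred_eq, Submodule.map_le_iff_le_comap, Submodule.span_le]
    rfl
  rw [this]
  refine Finset.measurableSet_biInter _ fun φ _ => measurableSet_tendsto _ fun t => ?_
  have h1 : ∀ t, Measurable fun z : (E →L[ℝ] E) × (ℕ → E →L[ℝ] E) => walk z.2 t := fun t =>
    (measurable_walk' t).comp measurable_snd
  have h2 : Measurable fun z : (E →L[ℝ] E) × (ℕ → E →L[ℝ] E) =>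
      z.1 * (walk z.2 (t + 1) - walk z.2 t) := measurable_fst.mul ((h1 (t + 1)).sub (h1 t))
  have h3 : Measurable fun a : E →L[ℝ] E => φ (a ξ) := by
    refine Continuous.measurable ?_
    fun_prop
  exact h3.comp h2

theorem measurableSet_le (ξ : E) (L : Submodule ℝ (E →L[ℝ] ℝ)) :
    MeasurableSet {w : ℕ → E →L[ℝ] E | L ≤ Wsub ξ w} := by
  have := (measurable_prodMk_left (x := (1 : E →L[ℝ] E))) (measurableSet_joint ξ L)
  simpa only [Set.preimage_ofPred_eq, map_pre_one] using this

theorem exists_top (m : Measure (E →L[ℝ] E)) [IsProbabilityMeasure m]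
    (hm : ∀ᵐ u ∂m, IsUnit u) (ξ : E) : ∃ L : Submodule ℝ (E →L[ℝ] ℝ),
      (∀ᵐ w ∂(Measure.infinitePi fun _ : ℕ => m), L ≤ Wsub ξ w) ∧ (∀ᵐ u ∂m, L.map (pre u) ≤ L) ∧
      ∀ φ, (Measure.infinitePi fun _ : ℕ => m) {w | φ ∈ Wsub ξ w} ≠ 0 → φ ∈ L := by
  classical
  set Q := Measure.infinitePi fun _ : ℕ => m with hQ
  let c : Submodule ℝ (E →L[ℝ] ℝ) → ℝ≥0∞ := fun L => Q {w | L ≤ Wsub ξ w}
  have hfr : ∀ (k : ℕ) (B : Set (ℕ → E →L[ℝ] E)), MeasurableSet B →
      (∀ w, (fun i => if i < k then w i else 1) ∈ B ↔ w ∈ B) → ∀ L : Submodule ℝ (E →L[ℝ] ℝ),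
      Q (B ∩ {w | L ≤ Wsub ξ w}) = ∫⁻ w, B.indicator (fun w => c (L.map (pre (walk w k)))) w ∂Q := by
    intro k B hB hB' L
    have h1 := freeze m 1 k (S := {z | z.1 ∈ B ∧ L.map (pre (walk z.1 k)) ≤ Wsub ξ z.2})
      ((measurable_fst hB).inter ((((measurable_walk' k).comp measurable_fst).prodMk
        measurable_snd) (measurableSet_joint ξ L)))
    have h2 : ∀ w : ℕ → E →L[ℝ] E, walk (fun i => if i < k then w i else 1) k = walk w k :=
      fun w => walk_congr k fun i hi => if_pos hi
    simp only [Set.mem_ofPred_eq, hB', h2, le_Wsub_shift] at h1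
    refine h1.trans (lintegral_congr fun w => ?_)
    by_cases hw : w ∈ B <;> simp [hw, c, hQ]
  obtain ⟨d, ⟨L0, hL0, hd0⟩, hd⟩ := Set.exists_max_image
    {n | ∃ L, c L ≠ 0 ∧ Module.finrank ℝ L = n} id
    ((Set.finite_Iic (Module.finrank ℝ (E →L[ℝ] ℝ))).subset (by
      rintro _ ⟨L, -, rfl⟩
      exact L.finrank_le)) ⟨_, ⊥, by simp [c], rfl⟩
  have hmax : ∀ L L' : Submodule ℝ (E →L[ℝ] ℝ), Module.finrank ℝ L = d → c (L ⊔ L') ≠ 0 →
      L' ≤ L := by
    intro L L' h1 h2
    have h3 : L = L ⊔ L' := Submodule.eq_of_le_of_finrank_le le_sup_left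
      (h1 ▸ hd _ ⟨_, h2, rfl⟩)
    rw [h3]
    exact le_sup_right
  have hfin : ∀ ε, 0 < ε → {L : Submodule ℝ (E →L[ℝ] ℝ) | Module.finrank ℝ L = d ∧ ε ≤ c L}.Finite := by
    intro ε hε
    have h1 := Measure.finite_const_le_meas_of_disjoint_iUnion₀ Q hε
      (As := fun L : {L : Submodule ℝ (E →L[ℝ] ℝ) // Module.finrank ℝ L = d} =>
        {w | L.1 ≤ Wsub ξ w}) (fun L => (measurableSet_le ξ _).nullMeasurableSet) (by
        intro L L' hne
        by_contra h2
        have h3 : c (L.1 ⊔ L'.1) ≠ 0 := by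
          simp only [c, sup_le_iff]
          exact h2
        exact hne (Subtype.ext (le_antisymm (hmax _ _ L'.2 (by rwa [sup_comm])) (hmax _ _ L.2 h3))))
      (measure_ne_top _ _)
    refine (h1.image Subtype.val).subset ?_
    rintro L ⟨h2, h3⟩
    exact ⟨⟨L, h2⟩, h3, rfl⟩
  obtain ⟨L1, ⟨hL1, hL1'⟩, hsup⟩ := Set.exists_max_image _ c (hfin (c L0) (pos_iff_ne_zero.2 hL0))
    ⟨L0, hd0, le_rfl⟩
  have hp0 : 0 < c L1 := (pos_iff_ne_zero.2 hL0).trans_le hL1'
  have hle : ∀ L : Submodule ℝ (E →L[ℝ] ℝ), Module.finrank ℝ L = d → c L ≤ c L1 := by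
    intro L hL
    rcases le_total (c L0) (c L) with h | h
    · exact hsup L ⟨hL, h⟩
    · exact h.trans hL1'
  have hev : Q.map (fun w => w 0) = m := Measure.infinitePi_map_eval _ 0
  have hunit : ∀ᵐ w ∂Q, IsUnit (w 0) :=
    ae_of_ae_map (measurable_pi_apply 0).aemeasurable (hev.symm ▸ hm)
  have hstep : ∀ᵐ w ∂Q, ∀ L ∈ {L : Submodule ℝ (E →L[ℝ] ℝ) | Module.finrank ℝ L = d ∧ c L1 ≤ c L},
      Module.finrank ℝ (L.map (pre (w 0))) = d ∧ c L1 ≤ c (L.map (pre (w 0))) := by
    rw [ae_ball_iff (hfin _ hp0).countable]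
    rintro L ⟨h1, h2⟩
    have h3 := hfr 1 Set.univ MeasurableSet.univ (by simp) L
    simp only [Set.univ_inter, Set.indicator_univ, walk, one_mul] at h3
    have h4 := ae_eq_of_ae_le_of_lintegral_le (μ := Q) (f := fun w => c (L.map (pre (w 0))))
      (g := fun _ => c L1) (by
        filter_upwards [hunit] with w hw using hle _ ((finrank_map_pre hw L).trans h1))
      (by rw [← h3]; exact measure_ne_top _ _) aemeasurable_const (by
        rw [← h3, lintegral_const, measure_univ, mul_one]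
        exact h2)
    filter_upwards [hunit, h4] with w hw h5 using ⟨(finrank_map_pre hw L).trans h1, h5.ge⟩
  have hall : ∀ᵐ w ∂Q, ∀ k, Module.finrank ℝ (L1.map (pre (walk w k))) = d ∧
      c L1 ≤ c (L1.map (pre (walk w k))) := by
    have h1 := fun k => ae_of_ae_map (μ := Q) (f := fun w i => w (k + i))
      (measurable_pi_lambda _ fun i => measurable_pi_apply _).aemeasurable
      (by rw [hQ, map_shift]; exact hstep)
    filter_upwards [ae_all_iff.2 h1] with w hw k
    induction k with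
    | zero => rw [walk, map_pre_one]; exact ⟨hL1, le_rfl⟩
    | succ k ih => rw [walk, map_pre_mul]; exact hw k _ ih
  have hind : Q.restrict {w | L1 ≤ Wsub ξ w} = c L1 • Q := by
    have key : ∀ (k : ℕ) (B : Set (ℕ → E →L[ℝ] E)), MeasurableSet B →
        (∀ w, (fun i => if i < k then w i else 1) ∈ B ↔ w ∈ B) →
        Q.restrict {w | L1 ≤ Wsub ξ w} B = (c L1 • Q) B := by
      intro k B hB hB'
      rw [Measure.restrict_apply hB, hfr k B hB hB', Measure.smul_apply, smul_eq_mul,
        ← lintegral_indicator_const hB]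
      refine lintegral_congr_ae ?_
      filter_upwards [hall] with w hw
      by_cases h : w ∈ B
      · simp only [Set.indicator_of_mem h]
        exact le_antisymm (hle _ (hw k).1) (hw k).2
      · simp [h]
    refine ext_of_generate_finite _ generateFrom_measurableCylinders.symm
      isPiSystem_measurableCylinders (fun B hB => ?_) (key 0 _ MeasurableSet.univ (by simp))
    obtain ⟨s, S, hS, rfl⟩ := (mem_measurableCylinders _).mp hB
    refine key (s.sup id + 1) _ hS.cylinder fun w => ?_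
    rw [mem_cylinder, mem_cylinder]
    refine iff_of_eq (congrArg (· ∈ S) (funext fun i => ?_))
    exact if_pos (Nat.lt_succ_of_le (Finset.le_sup (f := id) i.2))
  have hone : c L1 = 1 := by
    have h1 := congrArg (fun ν : Measure _ => ν {w | L1 ≤ Wsub ξ w}) hind
    simp only [Measure.restrict_apply_self, Measure.smul_apply, smul_eq_mul] at h1
    exact ((ENNReal.mul_left_inj hp0.ne' (measure_ne_top _ _)).mp
      ((one_mul _).trans h1)).symm
  have hae : ∀ᵐ w ∂Q, L1 ≤ Wsub ξ w := (mem_ae_iff_prob_eq_one (measurableSet_le ξ L1)).2 hone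
  have hin : ∀ L', c L' ≠ 0 → L' ≤ L1 := by
    intro L' h1
    refine hmax _ _ hL1 fun h2 => h1 ?_
    refine (measure_congr ?_).trans h2
    filter_upwards [hae] with w hw
    exact propext ⟨fun h => sup_le hw h, fun h => le_sup_right.trans h⟩
  refine ⟨L1, hae, ?_, fun φ hφ => ?_⟩
  · rw [← hev]
    refine (ae_map_iff (f := fun w : ℕ → E →L[ℝ] E => w 0) (measurable_pi_apply 0).aemeasurable
      (isClosed_pre L1).measurableSet).2 ?_
    filter_upwards [hstep] with w hw
    exact hin _ (hp0.trans_le (hw L1 ⟨hL1, le_rfl⟩).2).ne'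
  · refine (Submodule.span_singleton_le_iff_mem φ L1).mp (hin _ ?_)
    simpa only [c, Submodule.span_singleton_le_iff_mem] using hφ

end Op

theorem zero_one {E : Type*} [NormedAddCommGroup E] [NormedSpace ℝ E]
    [FiniteDimensional ℝ E] {G : Type*} [Group G] [TopologicalSpace G] [IsTopologicalGroup G]
    [MeasurableSpace G] [BorelSpace G] (μ : Measure G) [IsProbabilityMeasure μ]
    (hadapt : ∀ H : Subgroup G, IsClosed (H : Set G) → μ H = 1 → H = ⊤)
    {Ω : Type*} [MeasurableSpace Ω] {P : Measure Ω} {U : ℕ → Ω → G} (hind : iIndepFun U P)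
    (hlaw : ∀ i, HasLaw (U i) μ P) (ρ : G →* (E →L[ℝ] E)) (hρ : Continuous ρ) (ξ : E)
    (φ : E →L[ℝ] ℝ) (hpos : P {ω | Tendsto (fun t => φ (ρ (walk (fun i => U i ω) (t + 1)) ξ -
      ρ (walk (fun i => U i ω) t) ξ)) atTop (𝓝 0)} ≠ 0) (x : G) :
    ∀ᵐ ω ∂P, Tendsto (fun t => φ (ρ x (ρ (walk (fun i => U i ω) (t + 1)) ξ -
      ρ (walk (fun i => U i ω) t) ξ))) atTop (𝓝 0) := by
  have := FiniteDimensional.complete ℝ E
  have hρm : Measurable ρ := hρ.measurable
  have : IsProbabilityMeasure (μ.map ρ) := Measure.isProbabilityMeasure_map hρm.aemeasurable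
  obtain ⟨L, h1, h2, h3⟩ := exists_top (μ.map ρ)
    ((ae_map_iff hρm.aemeasurable Units.isOpen.measurableSet).2
      (Eventually.of_forall fun g => (Group.isUnit g).map ρ)) ξ
  have hl : ∀ i, HasLaw (fun ω => ρ (U i ω)) (μ.map ρ) P := fun i =>
    (HasLaw.mk hρm.aemeasurable rfl).fun_comp (hlaw i)
  have hQ := (hind.comp (fun _ => ρ) fun _ => hρm).hasLaw_infinitePi hl
    (aemeasurable_pi_iff.2 fun i => (hl i).aemeasurable)
  have hφ : φ ∈ L := by
    refine h3 φ ?_
    have hm : MeasurableSet {w : ℕ → E →L[ℝ] E | φ ∈ Wsub ξ w} := by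
      simpa only [Submodule.span_singleton_le_iff_mem] using measurableSet_le ξ (ℝ ∙ φ)
    rw [← hQ.map_eq, Measure.map_apply_of_aemeasurable hQ.aemeasurable hm]
    simp only [map_walk] at hpos
    exact hpos
  let H : Subgroup G :=
    { carrier := {g | L.map (pre (ρ g)) ≤ L}
      one_mem' := by
        show L.map (pre (ρ 1)) ≤ L
        rw [map_one, map_pre_one]
      mul_mem' := by
        intro a b ha hb
        show L.map (pre (ρ (a * b))) ≤ L
        rw [map_mul, map_pre_mul]
        exact (Submodule.map_mono ha).trans hb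
      inv_mem' := by
        intro a ha
        have e : L.map (pre (ρ a)) = L := Submodule.eq_of_le_of_finrank_eq ha
          (finrank_map_pre ((Group.isUnit a).map ρ) L)
        show L.map (pre (ρ a⁻¹)) ≤ L
        conv_lhs => rw [← e, ← map_pre_mul, ← map_mul, mul_inv_cancel, map_one, map_pre_one] }
  have hcl : IsClosed (H : Set G) := (isClosed_pre L).preimage hρ
  have hH : H = ⊤ := hadapt H hcl ((mem_ae_iff_prob_eq_one hcl.measurableSet).1
    (ae_of_ae_map hρm.aemeasurable h2))
  have hx : x ∈ H := hH ▸ Subgroup.mem_top x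
  rw [← hQ.map_eq] at h1
  filter_upwards [ae_of_ae_map hQ.aemeasurable h1] with ω hω
  simp only [map_walk]
  exact hω (hx ⟨φ, hφ, rfl⟩)

end Pool.Agent.Lib.MP_7af27d_pr
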